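import Pool.Agent.Work.MP_8590b5_gt.CM.All

/-!
# MP_8590b5_gt: the number of irreducible SU(3)-representations is not of finite type

For every `e` there is a framed link `L` in the 3-sphere, with framings `-1` and pairwise linking
numbers `0`, such that every sublink gives the 3-sphere or a Brieskorn sphere
`Σ(2, 2k+1, 4k+3)`, and every function with the absolute value `N3` on its sublinks has a non-zero
alternating sum over a sublink with at least `e` components.
-/

namespace Pool.Agent.Results.MP_8590b5_gt.NotFiniteType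

open Finset Pool.Agent.CM

theorem result (e : ℕ) : ∃ L : FLink, L.Valid ∧
    (∀ c < L.d, L.fr c = -1) ∧
    (∀ p < L.n, ∀ c < L.d, c ≠ L.comp p → L.lk c p = 0) ∧
    (∀ S ⊆ range L.d,
      (Subsingleton (L.grp S) ∨ ∃ k : ℕ, Nonempty (L.grp S ≃* BG k)) ∧
      Finite (IrrCl (L.grp S)) ∧ ∀ ρ : L.grp S →* SU3, Rigid ρ) ∧
    ∀ lam : Finset ℕ → ℚ, (∀ S ⊆ range L.d, |lam S| = N3 (L.grp S)) →
      ∃ T ⊆ range L.d, e ≤ T.card ∧ ∑ S ∈ T.powerset, (-1 : ℚ) ^ S.card * lam S ≠ 0 := by
  obtain ⟨L, h1, h2, h3, h4, _, h6⟩ := all_goal.2 e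
  exact ⟨L, h1, h2, h3, h4, h6⟩

end Pool.Agent.Results.MP_8590b5_gt.NotFiniteType
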